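import Mathlib

/-! Galois invariance and self-duality used in the parity theorem. -/

namespace R848.SIC

open scoped BigOperators
open Polynomial

variable {d : ℕ} [NeZero d]

theorem std_one_primitive : IsPrimitiveRoot (ZMod.stdAddChar (1 : ZMod d)) d := by
  have h : ZMod.stdAddChar (1 : ZMod d) = Complex.exp (2 * Real.pi * Complex.I / d) := by
    have := ZMod.stdAddChar_coe (N := d) 1
    simpa using this
  rw [h]
  exact Complex.isPrimitiveRoot_exp d (NeZero.ne d)

theorem std_pow (z : ZMod d) (k : ℕ) :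
    (ZMod.stdAddChar (1 : ZMod d)) ^ (k * z.val) = ZMod.stdAddChar ((k : ZMod d) * z) := by
  rw [← AddChar.map_nsmul_eq_pow]
  congr 1
  rw [nsmul_eq_mul]
  push_cast
  rw [ZMod.natCast_zmod_val, mul_one]

theorem unit_inv (G : ZMod d → ZMod d → ℤ) (K : ℤ) (hK : K ≠ 0)
    (hdual : ∀ x y, ∑ c, ∑ b, ZMod.stdAddChar (b * x - c * y) * (G c b : ℂ) = K * G x y)
    (u : ZMod d) (hu : IsUnit u) (x y : ZMod d) : G (u * x) (u * y) = G x y := by
  set ζ : ℂ := ZMod.stdAddChar (1 : ZMod d) with hζ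
  have hprim : IsPrimitiveRoot ζ d := std_one_primitive
  have hdpos : 0 < d := Nat.pos_of_ne_zero (NeZero.ne d)
  set P : ℤ[X] := (∑ c, ∑ b, C (G c b) * X ^ (b * x - c * y : ZMod d).val) - C (K * G x y) with hP
  have hval : ∀ k : ℕ, aeval (ζ ^ k) P =
      (∑ c, ∑ b, ZMod.stdAddChar ((k : ZMod d) * (b * x - c * y)) * (G c b : ℂ)) - K * G x y := by
    intro k
    rw [hP, map_sub, map_sum]
    congr 1
    · apply Finset.sum_congr rfl
      intro c _
      rw [map_sum]
      apply Finset.sum_congr rfl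
      intro b _
      rw [map_mul, map_pow, aeval_X, aeval_C, ← pow_mul, hζ, std_pow]
      simp [mul_comm]
    · rw [aeval_C]; simp
  have h1 : aeval ζ P = 0 := by
    have := hval 1
    rw [pow_one] at this
    rw [this]
    simp only [Nat.cast_one, one_mul]
    rw [hdual, sub_self]
  have h2 : minpoly ℤ ζ ∣ P := minpoly.isIntegrallyClosed_dvd (hprim.isIntegral hdpos) h1
  have hcop : Nat.Coprime u.val d := by
    have : IsUnit ((u.val : ℕ) : ZMod d) := by rw [ZMod.natCast_zmod_val]; exact hu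
    exact (ZMod.isUnit_iff_coprime _ _).1 this
  have h3 : aeval (ζ ^ u.val) P = 0 := by
    obtain ⟨R, hR⟩ := h2
    rw [hprim.minpoly_eq_pow_coprime hcop] at hR
    rw [hR, map_mul, minpoly.aeval, zero_mul]
  rw [hval, ZMod.natCast_zmod_val] at h3
  have h4 := hdual (u * x) (u * y)
  have h5 : ∑ c, ∑ b, ZMod.stdAddChar (u * (b * x - c * y)) * (G c b : ℂ) =
      ∑ c, ∑ b, ZMod.stdAddChar (b * (u * x) - c * (u * y)) * (G c b : ℂ) := by
    apply Finset.sum_congr rfl
    intro c _
    apply Finset.sum_congr rfl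
    intro b _
    congr 2
    ring
  rw [h5, h4] at h3
  have h6 : (K : ℂ) * (G (u * x) (u * y) - G x y) = 0 := by
    rw [mul_sub]; exact h3
  have h7 : ((G (u * x) (u * y) : ℂ) - G x y) = 0 :=
    (mul_eq_zero.1 h6).resolve_left (by exact_mod_cast hK)
  have h8 : (G (u * x) (u * y) : ℂ) = G x y := sub_eq_zero.1 h7
  exact_mod_cast h8

/-- the (phase-normalised) overlap with even first index -/
noncomputable def rr (ψ : ZMod d → ℂ) (c b : ZMod d) : ℂ :=
  ∑ j, ZMod.stdAddChar (b * j) * (starRingEnd ℂ (ψ (j + c)) * ψ (j - c))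

theorem rr_dual (ψ : ZMod d → ℂ) (ε : ℂ) (hε : ∀ j, ψ (-j) = ε * ψ j) (x y : ZMod d) :
    ∑ c, ∑ b, ZMod.stdAddChar (b * x - c * y) * rr ψ c b = d * starRingEnd ℂ ε * rr ψ x y := by
  have h1 : ∀ c, ∑ b, ZMod.stdAddChar (b * x - c * y) * rr ψ c b =
      d * (ZMod.stdAddChar (- (c * y)) * (starRingEnd ℂ (ψ (-x + c)) * ψ (-x - c))) := by
    intro c
    have e1 : ∀ b : ZMod d, ZMod.stdAddChar (b * x - c * y) * rr ψ c b =
        ∑ j, (ZMod.stdAddChar (b * (x + j)) *
          (ZMod.stdAddChar (- (c * y)) * (starRingEnd ℂ (ψ (j + c)) * ψ (j - c)))) := by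
      intro b
      rw [rr, Finset.mul_sum]
      apply Finset.sum_congr rfl
      intro j _
      have key : ZMod.stdAddChar (b * x - c * y) * ZMod.stdAddChar (b * j) =
          ZMod.stdAddChar (b * (x + j)) * ZMod.stdAddChar (- (c * y)) := by
        rw [← AddChar.map_add_eq_mul, ← AddChar.map_add_eq_mul]
        congr 1
        ring
      rw [← mul_assoc, key, mul_assoc]
    rw [Finset.sum_congr rfl (fun b _ => e1 b), Finset.sum_comm]
    have e2 : ∀ j : ZMod d, ∑ b : ZMod d, (ZMod.stdAddChar (b * (x + j)) *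
          (ZMod.stdAddChar (- (c * y)) * (starRingEnd ℂ (ψ (j + c)) * ψ (j - c)))) =
        (if x + j = 0 then (d : ℂ) else 0) *
          (ZMod.stdAddChar (- (c * y)) * (starRingEnd ℂ (ψ (j + c)) * ψ (j - c))) := by
      intro j
      rw [← Finset.sum_mul]
      congr 1
      have := AddChar.sum_mulShift (x + j) (ZMod.isPrimitive_stdAddChar d)
      rw [this, ZMod.card]
      push_cast
      rfl
    rw [Finset.sum_congr rfl (fun j _ => e2 j)]
    rw [Finset.sum_eq_single (-x)]
    · rw [if_pos (by ring)]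
    · intro j _ hj
      rw [if_neg, zero_mul]
      intro h
      exact hj (by linear_combination h)
    · simp
  rw [Finset.sum_congr rfl (fun c _ => h1 c), rr, Finset.mul_sum,
    ← Equiv.sum_comp (Equiv.neg (ZMod d))]
  apply Finset.sum_congr rfl
  intro j _
  simp only [Equiv.neg_apply]
  have e3 : ψ (-x + -j) = ε * ψ (j + x) := by rw [← hε]; congr 1; ring
  have e4 : -(-j * y) = y * j := by ring
  have e5 : -x - -j = j - x := by ring
  rw [e3, e4, e5, map_mul (starRingEnd ℂ)]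
  ring

theorem rr_real (ψ : ZMod d → ℂ) (ε : ℂ) (hε : ∀ j, ψ (-j) = ε * ψ j)
    (hε1 : starRingEnd ℂ ε * ε = 1) (c b : ZMod d) :
    starRingEnd ℂ (rr ψ c b) = rr ψ c b := by
  rw [rr, map_sum, ← Equiv.sum_comp (Equiv.neg (ZMod d))]
  apply Finset.sum_congr rfl
  intro j _
  simp only [Equiv.neg_apply, map_mul, Complex.conj_conj]
  rw [← AddChar.map_neg_eq_conj]
  have e1 : ψ (-j + c) = ε * ψ (j - c) := by rw [← hε]; congr 1; ring
  have e2 : ψ (-j - c) = ε * ψ (j + c) := by rw [← hε]; congr 1; ring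
  have e3 : -(b * -j) = b * j := by ring
  rw [e1, e2, e3, map_mul (starRingEnd ℂ)]
  calc ZMod.stdAddChar (b * j) * (ε * ψ (j - c) * (starRingEnd ℂ ε * starRingEnd ℂ (ψ (j + c)))) =
      (starRingEnd ℂ ε * ε) * (ZMod.stdAddChar (b * j) * (starRingEnd ℂ (ψ (j + c)) * ψ (j - c))) := by
        ring
    _ = _ := by rw [hε1, one_mul]

end R848.SIC
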