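import Mathlib

/-! Combinatorial part of the parity theorem for Weyl–Heisenberg SICs. -/

namespace R848.SIC

open scoped BigOperators

/-- `A = ZMod (q^e)`; every nonzero element divides `q^(e-1)`. -/
theorem exists_mul_eq_pow {q e : ℕ} (hq : q.Prime) (he : 1 ≤ e) (t : ZMod (q ^ e)) (ht : t ≠ 0) :
    ∃ a : ZMod (q ^ e), a * t = ((q ^ (e - 1) : ℕ) : ZMod (q ^ e)) := by
  have : NeZero (q ^ e) := ⟨pow_ne_zero _ hq.ne_zero⟩
  set m := t.val with hm
  have hm0 : m ≠ 0 := by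
    rw [hm]; rwa [ne_eq, ZMod.val_eq_zero]
  have hmt : (m : ZMod (q ^ e)) = t := by rw [hm]; exact ZMod.natCast_zmod_val t
  obtain ⟨i, v, hv, hmv⟩ := Nat.exists_eq_pow_mul_and_not_dvd hm0 q hq.ne_one
  have hmlt : m < q ^ e := ZMod.val_lt t
  have hvpos : 0 < v := Nat.pos_of_ne_zero (by rintro rfl; exact hv (dvd_zero _))
  have hie : i < e := by
    by_contra h
    push Not at h
    have : q ^ e ≤ q ^ i := Nat.pow_le_pow_right hq.pos h
    have : q ^ i ≤ q ^ i * v := Nat.le_mul_of_pos_right _ hvpos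
    omega
  have hvu : IsUnit ((v : ℕ) : ZMod (q ^ e)) := by
    rw [ZMod.isUnit_iff_coprime]
    exact Nat.Coprime.pow_right _ (Nat.Coprime.symm ((Nat.Prime.coprime_iff_not_dvd hq).2 hv))
  obtain ⟨w, hw⟩ := hvu
  refine ⟨((q ^ (e - 1 - i) : ℕ) : ZMod (q ^ e)) * ((w⁻¹ : (ZMod (q ^ e))ˣ) : ZMod (q ^ e)), ?_⟩
  rw [← hmt, hmv]
  push_cast
  rw [← hw]
  have : (q : ZMod (q ^ e)) ^ (e - 1 - i) * (↑w⁻¹ : ZMod (q ^ e)) * ((q : ZMod (q ^ e)) ^ i * (w : ZMod (q ^ e))) =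
      (q : ZMod (q ^ e)) ^ (e - 1 - i + i) * ((↑w⁻¹ : ZMod (q ^ e)) * (w : ZMod (q ^ e))) := by
    rw [pow_add]; ring
  rw [this, Units.inv_mul, mul_one]
  congr 1
  omega

/-- adding `q^(e-1)` to `β` is multiplication by a unit, away from `β = 0` and `β = -q^(e-1)`. -/
theorem exists_unit_add {q e : ℕ} (hq : q.Prime) (he : 1 ≤ e) (β : ZMod (q ^ e)) (hβ : β ≠ 0)
    (hβ2 : β + ((q ^ (e - 1) : ℕ) : ZMod (q ^ e)) ≠ 0) :
    ∃ k : (ZMod (q ^ e))ˣ, β + ((q ^ (e - 1) : ℕ) : ZMod (q ^ e)) = k * β := by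
  have : NeZero (q ^ e) := ⟨pow_ne_zero _ hq.ne_zero⟩
  set m := β.val with hm
  have hm0 : m ≠ 0 := by
    rw [hm]; rwa [ne_eq, ZMod.val_eq_zero]
  have hmt : (m : ZMod (q ^ e)) = β := by rw [hm]; exact ZMod.natCast_zmod_val β
  obtain ⟨i, v, hv, hmv⟩ := Nat.exists_eq_pow_mul_and_not_dvd hm0 q hq.ne_one
  have hmlt : m < q ^ e := ZMod.val_lt β
  have hvpos : 0 < v := Nat.pos_of_ne_zero (by rintro rfl; exact hv (dvd_zero _))
  have hie : i < e := by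
    by_contra h
    push Not at h
    have : q ^ e ≤ q ^ i := Nat.pow_le_pow_right hq.pos h
    have : q ^ i ≤ q ^ i * v := Nat.le_mul_of_pos_right _ hvpos
    omega
  have hunit : ∀ w : ℕ, ¬ q ∣ w → IsUnit ((w : ℕ) : ZMod (q ^ e)) := by
    intro w hw
    rw [ZMod.isUnit_iff_coprime]
    exact Nat.Coprime.pow_right _ (Nat.Coprime.symm ((Nat.Prime.coprime_iff_not_dvd hq).2 hw))
  have hsum : m + q ^ (e - 1) = q ^ i * (v + q ^ (e - 1 - i)) := by
    rw [mul_add, ← hmv, ← pow_add]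
    congr 2
    omega
  have hw2 : ¬ q ∣ v + q ^ (e - 1 - i) := by
    intro hdvd
    rcases Nat.lt_or_ge i (e - 1) with hlt | hge
    · have h1 : q ∣ q ^ (e - 1 - i) := dvd_pow_self q (by omega)
      exact hv ((Nat.dvd_add_left h1).1 hdvd)
    · have hi : i = e - 1 := by omega
      apply hβ2
      rw [← hmt, ← Nat.cast_add, hsum, hi]
      rw [ZMod.natCast_eq_zero_iff]
      have : q ^ e = q ^ (e - 1) * q := by
        rw [← pow_succ]; congr 1; omega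
      rw [this]
      rw [hi] at hdvd
      exact Nat.mul_dvd_mul_left _ hdvd
  obtain ⟨u1, hu1⟩ := hunit v hv
  obtain ⟨u2, hu2⟩ := hunit _ hw2
  refine ⟨u2 * u1⁻¹, ?_⟩
  have h1 : β + ((q ^ (e - 1) : ℕ) : ZMod (q ^ e)) = ((q ^ i : ℕ) : ZMod (q ^ e)) * u2 := by
    rw [← hmt, ← Nat.cast_add, hsum, hu2]; push_cast; ring
  have h2 : β = ((q ^ i : ℕ) : ZMod (q ^ e)) * u1 := by
    rw [← hmt, hmv, hu1]; push_cast; ring
  rw [h1]
  rw [h2, Units.val_mul]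
  have : (u2 : ZMod (q ^ e)) * ↑u1⁻¹ * (((q ^ i : ℕ) : ZMod (q ^ e)) * u1) =
    ((q ^ i : ℕ) : ZMod (q ^ e)) * u2 * (↑u1⁻¹ * u1) := by ring
  rw [this, Units.inv_mul, mul_one]

/-- For a `±1` valued `f`, if the integer `h` given by the sum is divisible by the odd `Q`, then it
vanishes or is extremal. -/
theorem extremal {A : Type*} [Fintype A] (Q : ℕ) (hQ : Fintype.card A = Q) (hodd : Odd Q)
    (hQ0 : 0 < Q)
    (f g : A → ℤ) (hf : ∀ a, f a = 1 ∨ f a = -1) (hg : ∀ a, g a = 1 ∨ g a = -1)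
    (hdvd : (Q : ℤ) ∣ ∑ a, (f a - g a)) :
    (∑ a, (f a - g a) = 0) ∨
      ∃ σ : ℤ, (σ = 1 ∨ σ = -1) ∧ (∑ a, (f a - g a) = 2 * Q * σ) ∧ ∀ a, f a = σ ∧ g a = -σ := by
  set h := ∑ a, (f a - g a) with hh
  have h2 : (2 : ℤ) ∣ h := by
    apply Finset.dvd_sum
    intro a _
    rcases hf a with h1 | h1 <;> rcases hg a with h3 | h3 <;> rw [h1, h3] <;> decide
  have hcop : IsCoprime (2 : ℤ) (Q : ℤ) := by
    have : Nat.Coprime 2 Q := by
      rw [Nat.coprime_two_left]; exact hodd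
    exact_mod_cast Nat.isCoprime_iff_coprime.2 this
  obtain ⟨m, hm⟩ := hcop.mul_dvd h2 hdvd
  have hup : h ≤ 2 * Q := by
    have : h ≤ ∑ _a : A, (2 : ℤ) := by
      rw [hh]
      apply Finset.sum_le_sum
      intro a _
      rcases hf a with h1 | h1 <;> rcases hg a with h3 | h3 <;> rw [h1, h3] <;> norm_num
    simp [hQ] at this
    linarith
  have hlo : -(2 * Q) ≤ h := by
    have : ∑ _a : A, (-2 : ℤ) ≤ h := by
      rw [hh]
      apply Finset.sum_le_sum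
      intro a _
      rcases hf a with h1 | h1 <;> rcases hg a with h3 | h3 <;> rw [h1, h3] <;> norm_num
    simp [hQ] at this
    linarith
  have hQ' : (0 : ℤ) < Q := by exact_mod_cast hQ0
  have hm1 : m ≤ 1 := by nlinarith
  have hm2 : -1 ≤ m := by nlinarith
  have hcases : m = 0 ∨ m = 1 ∨ m = -1 := by omega
  rcases hcases with h0 | h1 | h1
  · left; rw [hm, h0]; ring
  · right
    refine ⟨1, Or.inl rfl, by rw [hm, h1], ?_⟩
    have hz : ∑ a, (2 - (f a - g a)) = 0 := by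
      rw [Finset.sum_sub_distrib, ← hh, hm, h1]
      simp [hQ]; ring
    have hnn : ∀ a ∈ Finset.univ, 0 ≤ 2 - (f a - g a) := by
      intro a _
      rcases hf a with h1 | h1 <;> rcases hg a with h3 | h3 <;> rw [h1, h3] <;> norm_num
    intro a
    have := (Finset.sum_eq_zero_iff_of_nonneg hnn).1 hz a (Finset.mem_univ a)
    rcases hf a with h1 | h1 <;> rcases hg a with h3 | h3 <;> rw [h1, h3] at this ⊢ <;>
      omega
  · right
    refine ⟨-1, Or.inr rfl, by rw [hm, h1], ?_⟩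
    have hz : ∑ a, (2 + (f a - g a)) = 0 := by
      rw [Finset.sum_add_distrib, ← hh, hm, h1]
      simp [hQ]; ring
    have hnn : ∀ a ∈ Finset.univ, 0 ≤ 2 + (f a - g a) := by
      intro a _
      rcases hf a with h1 | h1 <;> rcases hg a with h3 | h3 <;> rw [h1, h3] <;> norm_num
    intro a
    have := (Finset.sum_eq_zero_iff_of_nonneg hnn).1 hz a (Finset.mem_univ a)
    rcases hf a with h1 | h1 <;> rcases hg a with h3 | h3 <;> rw [h1, h3] at this ⊢ <;>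
      omega

/-- The key combinatorial bound. -/
theorem key_bound {q e : ℕ} (hq : q.Prime) (he : 1 ≤ e) (hq2 : q ≠ 2) [Fintype (ZMod (q ^ e))]
    (f : ZMod (q ^ e) → ZMod (q ^ e) → ℤ) (hf : ∀ a b, f a b = 1 ∨ f a b = -1)
    (hdvd : ∀ t, ((q ^ e : ℕ) : ℤ) ∣
      ∑ a, (f a (t * a) - f a (t * a + ((q ^ (e - 1) : ℕ) : ZMod (q ^ e)))))
    (c : ℤ) :
    ∑ t, (c + ∑ a, (f a (t * a) - f a (t * a + ((q ^ (e - 1) : ℕ) : ZMod (q ^ e))))) ^ 2 ≤
      (q ^ e : ℕ) * c ^ 2 + max 0 (4 * (q ^ e : ℕ) * f 0 0 * c + 4 * (q ^ e : ℕ) ^ 2) := by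
  have : NeZero (q ^ e) := ⟨pow_ne_zero _ hq.ne_zero⟩
  have hcard : Fintype.card (ZMod (q ^ e)) = q ^ e := ZMod.card _
  have hodd : Odd (q ^ e) := (hq.odd_of_ne_two hq2).pow
  have hpos : 0 < q ^ e := pow_pos hq.pos _
  set h : ZMod (q ^ e) → ℤ :=
    fun t => ∑ a, (f a (t * a) - f a (t * a + ((q ^ (e - 1) : ℕ) : ZMod (q ^ e)))) with hh
  have hext : ∀ t, h t = 0 ∨ ∃ σ : ℤ, (σ = 1 ∨ σ = -1) ∧ (h t = 2 * (q ^ e : ℕ) * σ) ∧
      ∀ a, f a (t * a) = σ ∧ f a (t * a + ((q ^ (e - 1) : ℕ) : ZMod (q ^ e))) = -σ := by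
    intro t
    exact extremal (q ^ e) hcard hodd hpos (fun a => f a (t * a))
      (fun a => f a (t * a + ((q ^ (e - 1) : ℕ) : ZMod (q ^ e))))
      (fun a => hf _ _) (fun a => hf _ _) (hdvd t)
  by_cases hall : ∀ t, h t = 0
  · have : ∑ t, (c + h t) ^ 2 = (q ^ e : ℕ) * c ^ 2 := by
      simp [hall]
    rw [this]
    have := le_max_left 0 (4 * ((q ^ e : ℕ) : ℤ) * f 0 0 * c + 4 * ((q ^ e : ℕ) : ℤ) ^ 2)
    linarith
  · push Not at hall
    obtain ⟨t0, ht0⟩ := hall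
    obtain ⟨σ, hσ, hval, hfa⟩ := (hext t0).resolve_left ht0
    have hσ0 : f 0 0 = σ := by
      have := (hfa 0).1
      rwa [mul_zero] at this
    have huniq : ∀ t, t ≠ t0 → h t = 0 := by
      intro t ht
      by_contra hne
      obtain ⟨σ', hσ', hval', hfa'⟩ := (hext t).resolve_left hne
      have hσ0' : f 0 0 = σ' := by
        have := (hfa' 0).1
        rwa [mul_zero] at this
      obtain ⟨a, ha⟩ := exists_mul_eq_pow hq he (t - t0) (sub_ne_zero.2 ht)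
      have h1 := (hfa' a).1
      have h2 := (hfa a).2
      have h3 : t * a = t0 * a + ((q ^ (e - 1) : ℕ) : ZMod (q ^ e)) := by
        rw [← ha]; ring
      rw [h3, h2] at h1
      rw [← hσ0', hσ0] at h1
      rcases hσ with h | h <;> rw [h] at h1 <;> norm_num at h1
    have hsum : ∑ t, (c + h t) ^ 2 = ∑ t, (c ^ 2 + if t = t0 then (2 * c * h t0 + (h t0) ^ 2) else 0) := by
      apply Finset.sum_congr rfl
      intro t _
      by_cases htt : t = t0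
      · rw [if_pos htt, htt]; ring
      · rw [if_neg htt, huniq t htt]; ring
    rw [hsum, Finset.sum_add_distrib, Finset.sum_ite_eq' Finset.univ t0]
    simp only [Finset.mem_univ, if_true, Finset.sum_const, Finset.card_univ, hcard, nsmul_eq_mul]
    have h5 := le_max_right 0 (4 * ((q ^ e : ℕ) : ℤ) * f 0 0 * c + 4 * ((q ^ e : ℕ) : ℤ) ^ 2)
    have h6 : 2 * c * h t0 + (h t0) ^ 2 =
        4 * ((q ^ e : ℕ) : ℤ) * f 0 0 * c + 4 * ((q ^ e : ℕ) : ℤ) ^ 2 := by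
      rw [hval, hσ0]
      have hσ2 : σ ^ 2 = 1 := by rcases hσ with h | h <;> rw [h] <;> norm_num
      have : 2 * c * (2 * ((q ^ e : ℕ) : ℤ) * σ) + (2 * ((q ^ e : ℕ) : ℤ) * σ) ^ 2 =
        4 * ((q ^ e : ℕ) : ℤ) * σ * c + 4 * ((q ^ e : ℕ) : ℤ) ^ 2 * σ ^ 2 := by ring
      rw [this, hσ2, mul_one]
    rw [h6]
    linarith

end R848.SIC
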