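import Mathlib

/-! Numerical endgame of the parity theorem for Weyl–Heisenberg SICs. -/

namespace R848.SIC

theorem final_false (Q D n ν η κ : ℤ) (hQ : 5 ≤ Q) (hn : 2 ≤ n) (hη : η = 1 ∨ η = -1)
    (hnν : n = η + Q * ν) (hQD : n ^ 2 = Q * D + 1) (hκ : κ = 1 ∨ (κ = 2 ∧ Even D))
    (hineq : Q * (Q * D) ^ 2 ≤
      4 * Q ^ 2 * (D ^ 2 - κ) + κ * (Q * (Q * ν) ^ 2 + max 0 (4 * Q * η * (Q * ν) + 4 * Q ^ 2))) :
    False := by
  have hη2 : η ^ 2 = 1 := by rcases hη with h | h <;> rw [h] <;> norm_num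
  have hν : 1 ≤ ν := by
    by_contra h
    push Not at h
    have h1 : ν ≤ 0 := by omega
    have h2 : Q * ν ≤ 0 := by nlinarith
    rcases hη with h | h <;> rw [h] at hnν <;> linarith
  have hD : D = ν * (n + η) := by
    have h1 : Q * D = Q * (ν * (n + η)) := by
      have : Q * D = n ^ 2 - η ^ 2 := by rw [hQD, hη2]; ring
      rw [this]
      have h3 : Q * ν = n - η := by rw [hnν]; ring
      have : Q * (ν * (n + η)) = (Q * ν) * (n + η) := by ring
      rw [this, h3]; ring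
    exact mul_left_cancel₀ (by omega) h1
  have hQ2 : (0 : ℤ) < Q ^ 2 := by positivity
  rcases hη with h1 | h1
  · rw [h1] at hineq hD hnν
    have hmax : max 0 (4 * Q * 1 * (Q * ν) + 4 * Q ^ 2) = Q ^ 2 * (4 * ν + 4) := by
      rw [max_eq_right]
      · ring
      · positivity
    rw [hmax] at hineq
    have h2 : Q ^ 2 * (Q * D ^ 2) ≤ Q ^ 2 * (4 * D ^ 2 + κ * (Q * ν ^ 2 + 4 * ν)) := by
      nlinarith [hineq]
    have h3 := le_of_mul_le_mul_left h2 hQ2
    have hκ2 : κ ≤ 2 := by rcases hκ with h | h <;> omega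
    have hκ1 : 0 ≤ κ := by rcases hκ with h | h <;> omega
    have h4 : κ * (Q * ν ^ 2 + 4 * ν) ≤ 2 * (Q * ν ^ 2 + 4 * ν ^ 2) := by
      have : ν ≤ ν ^ 2 := by nlinarith
      have h5 : 0 ≤ Q * ν ^ 2 + 4 * ν := by positivity
      nlinarith
    have h6 : (Q - 4) * (ν * (n + 1)) ^ 2 ≤ (2 * Q + 8) * ν ^ 2 := by
      rw [← hD]; nlinarith
    have hn7 : 7 ≤ n + 1 := by nlinarith
    have h7 : 49 * ν ^ 2 ≤ (ν * (n + 1)) ^ 2 := by
      have : (49 : ℤ) ≤ (n + 1) ^ 2 := by nlinarith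
      have h8 : 0 ≤ ν ^ 2 := by positivity
      nlinarith
    have h9 : (Q - 4) * (49 * ν ^ 2) ≤ (Q - 4) * (ν * (n + 1)) ^ 2 :=
      mul_le_mul_of_nonneg_left h7 (by omega)
    have h10 : 0 < ν ^ 2 := by positivity
    nlinarith
  · rw [h1] at hineq hD hnν
    have hmax : max 0 (4 * Q * (-1) * (Q * ν) + 4 * Q ^ 2) = 0 := by
      apply max_eq_left
      nlinarith
    rw [hmax] at hineq
    have h2 : Q ^ 2 * (Q * D ^ 2) ≤ Q ^ 2 * (4 * D ^ 2 - 4 * κ + κ * (Q * ν ^ 2)) := by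
      nlinarith [hineq]
    have h3 := le_of_mul_le_mul_left h2 hQ2
    have hn1 : n + -1 = Q * ν - 2 := by rw [hnν]; ring
    rw [hn1] at hD
    have h10 : 0 < ν ^ 2 := by positivity
    have hκ1 : 0 < κ := by rcases hκ with h | h <;> omega
    have h4 : ν ^ 2 * ((Q - 4) * (Q * ν - 2) ^ 2) < ν ^ 2 * (κ * Q) := by
      have : ν ^ 2 * ((Q - 4) * (Q * ν - 2) ^ 2) = (Q - 4) * D ^ 2 := by rw [hD]; ring
      rw [this]; nlinarith
    have h5 := lt_of_mul_lt_mul_left h4 h10.le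
    have h6 : Q - 2 ≤ Q * ν - 2 := by nlinarith
    have h7 : (Q - 2) ^ 2 ≤ (Q * ν - 2) ^ 2 := by nlinarith
    rcases hκ with h8 | ⟨h8, h9⟩
    · rw [h8] at h5
      nlinarith
    · rw [h8] at h5
      rcases (show Q = 5 ∨ 6 ≤ Q by omega) with hQ5 | hQ6
      · rw [hQ5] at h5 hD
        have hν1 : ν = 1 := by
          by_contra hne
          have : 2 ≤ ν := by omega
          nlinarith
        rw [hν1] at hD
        norm_num at hD
        rw [hD] at h9
        exact absurd h9 (by decide)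
      · have h11 : (Q - 4) * (Q - 2) ^ 2 ≤ (Q - 4) * (Q * ν - 2) ^ 2 :=
          mul_le_mul_of_nonneg_left h7 (by omega)
        have h12 : 2 * (Q - 2) ^ 2 ≤ (Q - 4) * (Q - 2) ^ 2 :=
          mul_le_mul_of_nonneg_right (by omega) (by positivity)
        nlinarith

end R848.SIC
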