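import Mathlib
import Pool.Agent.R848.SIC.Comb

/-! Ramanujan-sum lemma and Fourier inversion used in the parity theorem. -/

namespace R848.SIC

open scoped BigOperators

theorem ramanujan {q e : ℕ} (hq : q.Prime) (he : 1 ≤ e) [NeZero (q ^ e)]
    (χ : AddChar (ZMod (q ^ e)) ℂ) (hχ : χ.IsPrimitive) (g : ZMod (q ^ e) → ℂ)
    (hg : ∀ (k : (ZMod (q ^ e))ˣ) β, g (k * β) = g β) :
    ∑ β, χ β * g β = g 0 - g ((q ^ (e - 1) : ℕ) : ZMod (q ^ e)) := by
  set p : ZMod (q ^ e) := ((q ^ (e - 1) : ℕ) : ZMod (q ^ e)) with hp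
  have hp0 : p ≠ 0 := by
    rw [hp, ne_eq, ZMod.natCast_eq_zero_iff]
    intro h
    have h1 := Nat.le_of_dvd (pow_pos hq.pos _) h
    have h2 : q ^ (e - 1) < q ^ e := Nat.pow_lt_pow_right hq.one_lt (by omega)
    omega
  have hχp : χ p ≠ 1 := by
    intro h
    apply hχ hp0
    rw [AddChar.eq_one_iff]
    intro x
    rw [AddChar.mulShift_apply]
    have : p * x = (x.val : ℕ) • p := by
      rw [nsmul_eq_mul, ZMod.natCast_zmod_val, mul_comm]
    rw [this, AddChar.map_nsmul_eq_pow, h, one_pow]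
  have hχ1 : χ ≠ 1 := by
    intro h
    exact hχp (by rw [h]; rfl)
  set G : ZMod (q ^ e) → ℂ := fun β => if β = 0 then 0 else g β - g p with hG
  have hshift : ∀ β, G (β + p) = G β := by
    intro β
    by_cases h0 : β = 0
    · rw [h0, zero_add]
      simp [hG]
    · by_cases h1 : β + p = 0
      · have hβ : β = -p := eq_neg_of_add_eq_zero_left h1
        have : g β = g p := by
          rw [hβ]
          have := hg (-1) p
          simpa using this
        simp only [hG, h1, h0, if_true, if_false, this, sub_self]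
      · obtain ⟨k, hk⟩ := exists_unit_add hq he β h0 h1
        simp only [hG, h1, h0, if_false]
        rw [← hp] at hk
        rw [hk, hg]
  have hS : ∑ β, χ β * G β = 0 := by
    have h1 : ∑ β, χ β * G β = ∑ β, χ (β + p) * G (β + p) :=
      (Equiv.sum_comp (Equiv.addRight p) (fun β => χ β * G β)).symm
    have h2 : ∑ β, χ (β + p) * G (β + p) = χ p * ∑ β, χ β * G β := by
      rw [Finset.mul_sum]
      apply Finset.sum_congr rfl
      intro β _
      rw [hshift, AddChar.map_add_eq_mul]; ring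
    rw [h2] at h1
    have h3 : (χ p - 1) * ∑ β, χ β * G β = 0 := by
      rw [sub_mul, one_mul, ← h1, sub_self]
    exact (mul_eq_zero.1 h3).resolve_left (sub_ne_zero.2 hχp)
  have h1 : ∀ β, χ β * g β = χ β * G β + (if β = 0 then (g 0 - g p) else 0) + χ β * g p := by
    intro β
    by_cases h0 : β = 0
    · simp [hG, h0]
    · simp [hG, h0]; ring
  rw [Finset.sum_congr rfl (fun β _ => h1 β), Finset.sum_add_distrib, Finset.sum_add_distrib, hS,
    ← Finset.sum_mul, AddChar.sum_eq_zero_of_ne_one hχ1]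
  simp

section inversion

variable {B : Type*} [CommRing B] [Fintype B] [DecidableEq B]

theorem fourier_inv (χ : AddChar B ℂ) (hχ : χ.IsPrimitive) (h : B → B → ℂ) (s1 s2 : B) :
    ∑ x, ∑ y, χ (-(s2 * x - s1 * y)) * (∑ u1, ∑ u2, χ (u2 * x - u1 * y) * h u1 u2) =
      (Fintype.card B : ℂ) ^ 2 * h s1 s2 := by
  have h1 : ∀ x y : B, χ (-(s2 * x - s1 * y)) * (∑ u1, ∑ u2, χ (u2 * x - u1 * y) * h u1 u2) =
      ∑ u1, ∑ u2, (χ (x * (u2 - s2)) * (χ (y * (s1 - u1)) * h u1 u2)) := by
    intro x y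
    rw [Finset.mul_sum]
    apply Finset.sum_congr rfl
    intro u1 _
    rw [Finset.mul_sum]
    apply Finset.sum_congr rfl
    intro u2 _
    rw [← mul_assoc, ← mul_assoc, ← AddChar.map_add_eq_mul, ← AddChar.map_add_eq_mul]
    congr 2
    ring
  simp_rw [h1]
  have h2 : ∀ u1 u2 : B, ∑ x, ∑ y, χ (x * (u2 - s2)) * (χ (y * (s1 - u1)) * h u1 u2) =
      (if u2 - s2 = 0 then (Fintype.card B : ℂ) else 0) *
        (if s1 - u1 = 0 then (Fintype.card B : ℂ) else 0) * h u1 u2 := by
    intro u1 u2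
    have e1 := AddChar.sum_mulShift (u2 - s2) hχ
    have e2 := AddChar.sum_mulShift (s1 - u1) hχ
    rw [Nat.cast_ite, Nat.cast_zero] at e1 e2
    rw [← e1, ← e2, Finset.sum_mul_sum, Finset.sum_mul]
    apply Finset.sum_congr rfl
    intro x _
    rw [Finset.sum_mul]
    apply Finset.sum_congr rfl
    intro y _
    ring
  have h3 : ∑ x, ∑ y, ∑ u1, ∑ u2, (χ (x * (u2 - s2)) * (χ (y * (s1 - u1)) * h u1 u2)) =
      ∑ u1, ∑ u2, ∑ x, ∑ y, (χ (x * (u2 - s2)) * (χ (y * (s1 - u1)) * h u1 u2)) := by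
    rw [Finset.sum_congr rfl (fun x _ => Finset.sum_comm)]
    rw [Finset.sum_comm]
    apply Finset.sum_congr rfl
    intro u1 _
    rw [Finset.sum_congr rfl (fun x _ => Finset.sum_comm)]
    rw [Finset.sum_comm]
  rw [h3]
  simp_rw [h2]
  rw [Finset.sum_eq_single s1]
  · rw [Finset.sum_eq_single s2]
    · rw [if_pos (sub_self _), if_pos (sub_self _)]; ring
    · intro b _ hb
      rw [if_neg (sub_ne_zero.2 hb)]; ring
    · simp
  · intro b _ hb
    apply Finset.sum_eq_zero
    intro u2 _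
    rw [if_neg (sub_ne_zero.2 (Ne.symm hb))]; ring
  · simp

omit [DecidableEq B] in
theorem char_integral (χ : AddChar B ℂ) (z : B) : IsIntegral ℤ (χ z) := by
  have h : χ z ^ (Fintype.card B) = 1 := by
    rw [← AddChar.map_nsmul_eq_pow, card_nsmul_eq_zero, AddChar.map_zero_eq_one]
  exact IsIntegral.of_pow Fintype.card_pos (by rw [h]; exact isIntegral_one)

/-- rational algebraic integers are integers. -/
theorem int_of_integral (Y : ℂ) (hY : IsIntegral ℤ Y) (r : ℚ) (hr : Y = (r : ℂ)) :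
    ∃ z : ℤ, Y = (z : ℂ) := by
  have h1 : IsIntegral ℤ (algebraMap ℚ ℂ r) := by
    rw [hr] at hY
    simpa using hY
  have h2 : IsIntegral ℤ r := (isIntegral_algebraMap_iff (algebraMap ℚ ℂ).injective).1 h1
  obtain ⟨z, hz⟩ := IsIntegrallyClosed.isIntegral_iff.1 h2
  refine ⟨z, ?_⟩
  rw [hr, ← hz]
  simp

end inversion

end R848.SIC
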