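import Mathlib
import Pool.Agent.R848.SIC.Comb
import Pool.Agent.R848.SIC.Numeric
import Pool.Agent.R848.SIC.Ram

/-! The main contradiction: no odd prime power `≥ 5` exactly divides `d`. -/

namespace R848.SIC

open scoped BigOperators

section kappa

theorem card_two_torsion (D : ℕ) [NeZero D] :
    ((Finset.univ.filter (fun s : ZMod D => 2 * s = 0)).card = 1) ∨
    ((Finset.univ.filter (fun s : ZMod D => 2 * s = 0)).card = 2 ∧ Even D) := by
  have hDpos : 0 < D := Nat.pos_of_ne_zero (NeZero.ne D)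
  have key : ∀ s : ZMod D, 2 * s = 0 ↔ s = 0 ∨ 2 * s.val = D := by
    intro s
    constructor
    · intro h
      have h1 : ((2 * s.val : ℕ) : ZMod D) = 0 := by
        push_cast
        rw [ZMod.natCast_zmod_val]; exact h
      rw [ZMod.natCast_eq_zero_iff] at h1
      obtain ⟨k, hk⟩ := h1
      have hlt := ZMod.val_lt s
      have hk2 : k < 2 := by
        by_contra hge
        push Not at hge
        have : D * 2 ≤ D * k := Nat.mul_le_mul_left _ hge
        omega
      rcases (show k = 0 ∨ k = 1 by omega) with h0 | h1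
      · left
        rw [h0] at hk
        have : s.val = 0 := by omega
        exact (ZMod.val_eq_zero s).1 this
      · right
        rw [h1] at hk
        omega
    · rintro (h | h)
      · rw [h, mul_zero]
      · have : ((2 * s.val : ℕ) : ZMod D) = 0 := by
          rw [h]; exact ZMod.natCast_self D
        push_cast at this
        rwa [ZMod.natCast_zmod_val] at this
  rcases Nat.even_or_odd D with hev | hodd
  · right
    refine ⟨?_, hev⟩
    obtain ⟨m, hm⟩ := hev
    have hmD : m < D := by omega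
    have hval : ((m : ℕ) : ZMod D).val = m := ZMod.val_natCast_of_lt hmD
    have hne : (0 : ZMod D) ≠ (m : ZMod D) := by
      intro h
      have := congrArg ZMod.val h
      rw [hval, ZMod.val_zero] at this
      omega
    have : Finset.univ.filter (fun s : ZMod D => 2 * s = 0) = {0, (m : ZMod D)} := by
      ext s
      simp only [Finset.mem_filter, Finset.mem_univ, true_and, Finset.mem_insert,
        Finset.mem_singleton]
      rw [key]
      constructor
      · rintro (h | h)
        · exact Or.inl h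
        · right
          have : s.val = m := by omega
          rw [← this, ZMod.natCast_zmod_val]
      · rintro (h | h)
        · exact Or.inl h
        · right
          rw [h, hval]; omega
    rw [this, Finset.card_pair hne]
  · left
    have : Finset.univ.filter (fun s : ZMod D => 2 * s = 0) = {0} := by
      ext s
      simp only [Finset.mem_filter, Finset.mem_univ, true_and, Finset.mem_singleton]
      rw [key]
      constructor
      · rintro (h | h)
        · exact h
        · exfalso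
          rw [← h] at hodd
          exact (Nat.not_odd_iff_even.2 ⟨s.val, by ring⟩) hodd
      · intro h
        exact Or.inl h
    rw [this, Finset.card_singleton]

end kappa

variable {q e D : ℕ}

theorem step5 (hq : q.Prime) (he : 1 ≤ e) (hq2 : q ≠ 2) (hQ5 : 5 ≤ q ^ e)
    (hco : (q ^ e).Coprime D) [NeZero (q ^ e)] [NeZero D]
    (χ1 : AddChar (ZMod (q ^ e)) ℂ) (hχ1 : χ1.IsPrimitive)
    (χ2 : AddChar (ZMod D) ℂ) (hχ2 : χ2.IsPrimitive)
    (n : ℕ) (hn2 : 2 ≤ n) (hn : n ^ 2 = q ^ e * D + 1)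
    (ε : ℤ) (hε : ε = 1 ∨ ε = -1)
    (F : ZMod (q ^ e) → ZMod D → ZMod (q ^ e) → ZMod D → ℤ)
    (h1 : ∀ a s b r, ¬ (a = 0 ∧ 2 * s = 0 ∧ b = 0 ∧ r = 0) → F a s b r = 1 ∨ F a s b r = -1)
    (h2 : ∀ s, 2 * s = 0 → F 0 s 0 0 = n)
    (hdual : ∀ x1 x2 y1 y2, ∑ s, ∑ r, ∑ a, ∑ b,
      (χ1 (b * x1 - a * y1) * χ2 (r * x2 - s * y2)) * (F a s b r : ℂ) =
        (ε : ℂ) * ((q ^ e : ℕ) * D) * F x1 x2 y1 y2)
    (hunit : ∀ (k : (ZMod (q ^ e))ˣ) a s b r, F (k * a) s (k * b) r = F a s b r) : False := by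
  classical
  obtain ⟨Q, hQdef⟩ : ∃ Q : ℕ, Q = q ^ e := ⟨_, rfl⟩
  have hQC' : ((q ^ e : ℕ) : ℂ) = (Q : ℂ) := by rw [hQdef]
  have hQZ' : ((q ^ e : ℕ) : ℤ) = (Q : ℤ) := by rw [hQdef]
  rw [← hQdef] at hQ5 hn hco
  set p : ZMod (q ^ e) := ((q ^ (e - 1) : ℕ) : ZMod (q ^ e)) with hp
  have hQpos : 0 < Q := by omega
  have hDpos : 0 < D := Nat.pos_of_ne_zero (NeZero.ne D)
  have hp0 : p ≠ 0 := by
    rw [hp, ne_eq, ZMod.natCast_eq_zero_iff]
    intro h
    have h1 := Nat.le_of_dvd (pow_pos hq.pos _) h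
    have h2 : q ^ (e - 1) < q ^ e := Nat.pow_lt_pow_right hq.one_lt (by omega)
    omega
  have hone : (1 : ZMod (q ^ e)) ≠ 0 := by
    have : Fact (1 < q ^ e) := ⟨by omega⟩
    exact one_ne_zero
  -- the integer function H
  set H : ZMod (q ^ e) → ZMod D → ZMod D → ℤ :=
    fun t s r => ∑ a, (F a s (t * a) r - F a s (t * a + p) r) with hH
  have L1 : ∀ t s r, ∑ a, ∑ b, χ1 (b - a * t) * (F a s b r : ℂ) = (H t s r : ℂ) := by
    intro t s r
    have e1 : ∀ a : ZMod (q ^ e), ∑ b, χ1 (b - a * t) * (F a s b r : ℂ) =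
        ∑ β, χ1 β * (F a s (t * a + β) r : ℂ) := by
      intro a
      rw [← Equiv.sum_comp (Equiv.addLeft (t * a))]
      apply Finset.sum_congr rfl
      intro β _
      simp only [Equiv.coe_addLeft]
      congr 2
      ring
    rw [Finset.sum_congr rfl (fun a _ => e1 a), Finset.sum_comm]
    have e2 : ∀ β : ZMod (q ^ e), ∑ a, χ1 β * (F a s (t * a + β) r : ℂ) =
        χ1 β * ∑ a, (F a s (t * a + β) r : ℂ) := fun β => by rw [Finset.mul_sum]
    rw [Finset.sum_congr rfl (fun β _ => e2 β)]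
    rw [ramanujan hq he χ1 hχ1 (fun β => ∑ a, (F a s (t * a + β) r : ℂ))]
    · simp only [hH, add_zero]
      push_cast
      rw [Finset.sum_sub_distrib, hp]
      push_cast
      rfl
    · intro k β
      rw [← Equiv.sum_comp (Units.mulLeft k)]
      apply Finset.sum_congr rfl
      intro a _
      simp only [Units.mulLeft_apply]
      rw [← hunit k a s (t * a + β) r]
      congr 2
      ring
  have L2 : ∀ t x y, ∑ s, ∑ r, χ2 (r * x - s * y) * (H t s r : ℂ) =
      (ε : ℂ) * ((Q : ℕ) * D) * F 1 x t y := by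
    intro t x y
    rw [← hQC', ← hdual 1 x t y]
    apply Finset.sum_congr rfl
    intro s _
    apply Finset.sum_congr rfl
    intro r _
    rw [← L1, Finset.mul_sum]
    apply Finset.sum_congr rfl
    intro a _
    rw [Finset.mul_sum]
    apply Finset.sum_congr rfl
    intro b _
    rw [mul_one]
    ring
  have hQC : ((Q : ℕ) : ℂ) ≠ 0 := by exact_mod_cast hQpos.ne'
  have hDC : (D : ℂ) ≠ 0 := by exact_mod_cast hDpos.ne'
  have hεsq : ε * ε = 1 := by rcases hε with h | h <;> rw [h] <;> norm_num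
  have hεC : (ε : ℂ) * ε = 1 := by exact_mod_cast hεsq
  have L4 : ∀ t s r, (D : ℂ) ^ 2 * (H t s r : ℂ) =
      ∑ x, ∑ y, χ2 (-(r * x - s * y)) * ((ε : ℂ) * ((Q : ℕ) * D) * F 1 x t y) := by
    intro t s r
    have := fourier_inv χ2 hχ2 (fun s r => (H t s r : ℂ)) s r
    rw [ZMod.card] at this
    rw [← this]
    apply Finset.sum_congr rfl
    intro x _
    apply Finset.sum_congr rfl
    intro y _
    rw [L2]
  -- divisibility
  have Ldvd : ∀ t s r, (Q : ℤ) ∣ H t s r := by
    intro t s r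
    set Y : ℂ := ∑ x, ∑ y, χ2 (-(r * x - s * y)) * (F 1 x t y : ℂ) with hY
    have hYint : IsIntegral ℤ Y := by
      rw [hY]
      apply IsIntegral.sum
      intro x _
      apply IsIntegral.sum
      intro y _
      apply IsIntegral.mul (char_integral χ2 _)
      exact isIntegral_algebraMap (R := ℤ) (x := F 1 x t y)
    have hDH : (D : ℂ) * (H t s r : ℂ) = ε * Q * Y := by
      have h3 : (D : ℂ) * ((D : ℂ) * (H t s r : ℂ)) = D * (ε * Q * Y) := by
        have := L4 t s r
        rw [← mul_assoc, ← pow_two, this, hY, Finset.mul_sum, Finset.mul_sum]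
        apply Finset.sum_congr rfl
        intro x _
        rw [Finset.mul_sum, Finset.mul_sum]
        apply Finset.sum_congr rfl
        intro y _
        ring
      exact mul_left_cancel₀ hDC h3
    have hYr : Y = (((ε : ℚ) * D * (H t s r : ℚ) / Q : ℚ) : ℂ) := by
      push_cast
      rw [eq_div_iff hQC]
      calc Y * (Q : ℂ) = ((ε : ℂ) * ε) * (Q * Y) := by rw [hεC]; ring
        _ = ε * (ε * Q * Y) := by ring
        _ = ε * (D * (H t s r : ℂ)) := by rw [hDH]
        _ = ε * D * (H t s r : ℂ) := by ring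
    obtain ⟨z, hz⟩ := int_of_integral Y hYint _ hYr
    rw [hz] at hDH
    have h4 : (D : ℤ) * H t s r = ε * Q * z := by exact_mod_cast hDH
    have h5 : (Q : ℤ) ∣ (D : ℤ) * H t s r := ⟨ε * z, by rw [h4]; ring⟩
    have hcop : IsCoprime (Q : ℤ) (D : ℤ) := Nat.isCoprime_iff_coprime.2 hco
    exact hcop.dvd_of_dvd_mul_left h5
  -- Parseval
  have hF1 : ∀ x t y, F 1 x t y * F 1 x t y = 1 := by
    intro x t y
    rcases h1 1 x t y (fun h => hone h.1) with h | h <;> rw [h] <;> norm_num
  have Lpars : ∀ t, ∑ s, ∑ r, (H t s r) ^ 2 = ((Q : ℤ) * D) ^ 2 := by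
    intro t
    have hconj : ∀ x y, ∑ s, ∑ r, χ2 (-(r * x - s * y)) * (H t s r : ℂ) =
        (ε : ℂ) * ((Q : ℕ) * D) * F 1 x t y := by
      intro x y
      have := congrArg (starRingEnd ℂ) (L2 t x y)
      rw [map_sum] at this
      simp only [map_sum, map_mul, map_natCast, map_intCast] at this
      rw [← this]
      apply Finset.sum_congr rfl
      intro s _
      apply Finset.sum_congr rfl
      intro r _
      rw [AddChar.map_neg_eq_conj]
    have hbig : (D : ℂ) ^ 2 * ∑ s, ∑ r, ((H t s r : ℂ)) ^ 2 = (D : ℂ) ^ 2 * (((Q : ℕ) : ℂ) * D) ^ 2 := by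
      calc (D : ℂ) ^ 2 * ∑ s, ∑ r, ((H t s r : ℂ)) ^ 2
          = ∑ s, ∑ r, (H t s r : ℂ) * ((D : ℂ) ^ 2 * (H t s r : ℂ)) := by
            rw [Finset.mul_sum]
            apply Finset.sum_congr rfl
            intro s _
            rw [Finset.mul_sum]
            apply Finset.sum_congr rfl
            intro r _
            ring
        _ = ∑ s, ∑ r, ∑ x, ∑ y, ((ε : ℂ) * ((Q : ℕ) * D) * F 1 x t y) *
              (χ2 (-(r * x - s * y)) * (H t s r : ℂ)) := by
            apply Finset.sum_congr rfl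
            intro s _
            apply Finset.sum_congr rfl
            intro r _
            rw [L4, Finset.mul_sum]
            apply Finset.sum_congr rfl
            intro x _
            rw [Finset.mul_sum]
            apply Finset.sum_congr rfl
            intro y _
            ring
        _ = ∑ x, ∑ y, ∑ s, ∑ r, ((ε : ℂ) * ((Q : ℕ) * D) * F 1 x t y) *
              (χ2 (-(r * x - s * y)) * (H t s r : ℂ)) := by
            rw [Finset.sum_congr rfl (fun x _ => Finset.sum_comm)]
            rw [Finset.sum_comm]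
            apply Finset.sum_congr rfl
            intro u1 _
            rw [Finset.sum_congr rfl (fun x _ => Finset.sum_comm)]
            rw [Finset.sum_comm]
        _ = ∑ x : ZMod D, ∑ y : ZMod D, (((Q : ℕ) : ℂ) * D) ^ 2 := by
            apply Finset.sum_congr rfl
            intro x _
            apply Finset.sum_congr rfl
            intro y _
            have : ∑ s, ∑ r, ((ε : ℂ) * ((Q : ℕ) * D) * F 1 x t y) *
              (χ2 (-(r * x - s * y)) * (H t s r : ℂ)) =
                ((ε : ℂ) * ((Q : ℕ) * D) * F 1 x t y) *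
                  ∑ s, ∑ r, χ2 (-(r * x - s * y)) * (H t s r : ℂ) := by
              rw [Finset.mul_sum]
              apply Finset.sum_congr rfl
              intro s _
              rw [Finset.mul_sum]
            rw [this, hconj]
            have h6 : (F 1 x t y : ℂ) * F 1 x t y = 1 := by exact_mod_cast hF1 x t y
            calc (ε : ℂ) * (((Q : ℕ) : ℂ) * D) * F 1 x t y * (ε * (((Q : ℕ) : ℂ) * D) * F 1 x t y) =
                ((ε : ℂ) * ε) * (F 1 x t y * F 1 x t y) * (((Q : ℕ) : ℂ) * D) ^ 2 := by ring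
              _ = _ := by rw [hεC, h6]; ring
        _ = (D : ℂ) ^ 2 * (((Q : ℕ) : ℂ) * D) ^ 2 := by
            simp only [Finset.sum_const, Finset.card_univ, ZMod.card, nsmul_eq_mul]
            ring
    have h7 := mul_left_cancel₀ (pow_ne_zero 2 hDC) hbig
    exact_mod_cast h7
  -- the residue of n
  have hnQ : (Q : ℤ) ∣ (n : ℤ) - 1 ∨ (Q : ℤ) ∣ (n : ℤ) + 1 := by
    have hprod : (Q : ℤ) ∣ ((n : ℤ) - 1) * ((n : ℤ) + 1) := by
      refine ⟨D, ?_⟩
      have : (n : ℤ) ^ 2 = Q * D + 1 := by exact_mod_cast hn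
      linarith [this, show ((n : ℤ) - 1) * (n + 1) = n ^ 2 - 1 by ring]
    by_cases hqd : (q : ℤ) ∣ (n : ℤ) - 1
    · left
      have hnot : ¬ (q : ℤ) ∣ (n : ℤ) + 1 := by
        intro h
        have h3 : (q : ℤ) ∣ 2 := by
          have := dvd_sub h hqd
          have h4 : (n : ℤ) + 1 - (n - 1) = 2 := by ring
          rwa [h4] at this
        have h5 : q ∣ 2 := by exact_mod_cast h3
        exact hq2 ((Nat.prime_dvd_prime_iff_eq hq Nat.prime_two).1 h5)
      have hcop : IsCoprime ((Q : ℕ) : ℤ) ((n : ℤ) + 1) := by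
        rw [hQdef]; push_cast
        exact IsCoprime.pow_left ((Nat.prime_iff_prime_int.1 hq).coprime_iff_not_dvd.2 hnot)
      exact hcop.dvd_of_dvd_mul_right hprod
    · right
      have hcop : IsCoprime ((Q : ℕ) : ℤ) ((n : ℤ) - 1) := by
        rw [hQdef]; push_cast
        exact IsCoprime.pow_left ((Nat.prime_iff_prime_int.1 hq).coprime_iff_not_dvd.2 hqd)
      exact hcop.dvd_of_dvd_mul_left hprod
  obtain ⟨η, ν, hη, hnν⟩ : ∃ η ν : ℤ, (η = 1 ∨ η = -1) ∧ (n : ℤ) = η + Q * ν := by
    rcases hnQ with ⟨ν, hν⟩ | ⟨ν, hν⟩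
    · exact ⟨1, ν, Or.inl rfl, by linarith⟩
    · exact ⟨-1, ν, Or.inr rfl, by linarith⟩
  -- the bound for every s
  have Lbound : ∀ s r, ∑ t, (H t s r) ^ 2 ≤ (if 2 * s = 0 ∧ r = 0 then
      ((Q : ℤ) * (Q * ν) ^ 2 + max 0 (4 * Q * η * (Q * ν) + 4 * (Q : ℤ) ^ 2)) else
        4 * (Q : ℤ) ^ 2) := by
    intro s r
    set c : ℤ := if 2 * s = 0 ∧ r = 0 then (Q : ℤ) * ν else 0 with hc
    set f : ZMod (q ^ e) → ZMod (q ^ e) → ℤ :=
      fun a b => if (2 * s = 0 ∧ r = 0) ∧ (a = 0 ∧ b = 0) then η else F a s b r with hf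
    have hfpm : ∀ a b, f a b = 1 ∨ f a b = -1 := by
      intro a b
      simp only [hf]
      split_ifs with h
      · exact hη
      · apply h1
        rintro ⟨ha, hs, hb, hr⟩
        exact h ⟨⟨hs, hr⟩, ha, hb⟩
    have hHf : ∀ t, H t s r = c + ∑ a, (f a (t * a) - f a (t * a + p)) := by
      intro t
      by_cases hs : 2 * s = 0 ∧ r = 0
      · simp only [hH, hc, hf, hs, and_self, if_true, true_and]
        have e1 : ∀ a : ZMod (q ^ e), F a s (t * a) 0 - F a s (t * a + p) 0 =
            (if a = 0 then (Q : ℤ) * ν else 0) +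
            ((if a = 0 ∧ t * a = 0 then η else F a s (t * a) 0) -
              (if a = 0 ∧ t * a + p = 0 then η else F a s (t * a + p) 0)) := by
          intro a
          by_cases ha : a = 0
          · rw [ha]
            simp only [mul_zero, zero_add, and_self, if_true, hp0, and_false, if_false]
            rw [h2 s hs.1, hnν]
            ring
          · simp [ha]
        rw [Finset.sum_congr rfl (fun a _ => e1 a), Finset.sum_add_distrib]
        simp
      · simp only [hH, hc, hf, hs, false_and, if_false, zero_add]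
    have hfdvd : ∀ t, ((q ^ e : ℕ) : ℤ) ∣ ∑ a, (f a (t * a) - f a (t * a + p)) := by
      intro t
      have h3 : ∑ a, (f a (t * a) - f a (t * a + p)) = H t s r - c := by rw [hHf]; ring
      rw [h3, hQZ']
      apply dvd_sub (Ldvd t s r)
      rw [hc]
      split_ifs
      · exact dvd_mul_right _ _
      · exact dvd_zero _
    have hkb := key_bound hq he hq2 f hfpm hfdvd c
    rw [hQZ'] at hkb
    have h4 : ∑ t, (H t s r) ^ 2 = ∑ t, (c + ∑ a, (f a (t * a) - f a (t * a + p))) ^ 2 :=
      Finset.sum_congr rfl (fun t _ => by rw [hHf])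
    rw [h4]
    refine hkb.trans ?_
    by_cases hs : 2 * s = 0 ∧ r = 0
    · have hf0 : f 0 0 = η := by simp only [hf, hs, and_self, if_true]
      have hc0 : c = Q * ν := by rw [hc, if_pos hs]
      rw [hf0, hc0, if_pos hs]
    · have hc0 : c = 0 := by rw [hc, if_neg hs]
      rw [hc0, if_neg hs]
      have : (0 : ℤ) ≤ 4 * (Q : ℤ) ^ 2 := by positivity
      rw [mul_zero, zero_add, max_eq_right this]
      nlinarith
  -- total
  have Ltot : (Q : ℤ) * (Q * D) ^ 2 ≤ ∑ s : ZMod D, ∑ r : ZMod D, (if 2 * s = 0 ∧ r = 0 then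
      ((Q : ℤ) * (Q * ν) ^ 2 + max 0 (4 * Q * η * (Q * ν) + 4 * (Q : ℤ) ^ 2)) else
        4 * (Q : ℤ) ^ 2) := by
    have h3 : (Q : ℤ) * (Q * D) ^ 2 = ∑ t : ZMod (q ^ e), ∑ s, ∑ r, (H t s r) ^ 2 := by
      rw [Finset.sum_congr rfl (fun t _ => Lpars t)]
      simp only [Finset.sum_const, Finset.card_univ, ZMod.card, nsmul_eq_mul]
      rw [hQZ']
    rw [h3]
    rw [Finset.sum_comm]
    apply Finset.sum_le_sum
    intro s _
    rw [Finset.sum_comm]
    apply Finset.sum_le_sum
    intro r _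
    exact Lbound s r
  set M : ℤ := ((Q : ℤ) * (Q * ν) ^ 2 + max 0 (4 * Q * η * (Q * ν) + 4 * (Q : ℤ) ^ 2)) with hM
  have hinner : ∀ s : ZMod D, ∑ r : ZMod D, (if 2 * s = 0 ∧ r = 0 then M else 4 * (Q : ℤ) ^ 2) =
      D * (4 * (Q : ℤ) ^ 2) + (if 2 * s = 0 then (M - 4 * (Q : ℤ) ^ 2) else 0) := by
    intro s
    have e1 : ∀ r : ZMod D, (if 2 * s = 0 ∧ r = 0 then M else 4 * (Q : ℤ) ^ 2) =
        4 * (Q : ℤ) ^ 2 + (if r = 0 then (if 2 * s = 0 then (M - 4 * (Q : ℤ) ^ 2) else 0) else 0) := by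
      intro r
      by_cases hs : 2 * s = 0 <;> by_cases hr : r = 0 <;> simp [hs, hr]
    rw [Finset.sum_congr rfl (fun r _ => e1 r), Finset.sum_add_distrib]
    simp [ZMod.card]
  rw [Finset.sum_congr rfl (fun s _ => hinner s), Finset.sum_add_distrib,
    ← Finset.sum_filter, Finset.sum_const, Finset.sum_const, Finset.card_univ, ZMod.card,
    nsmul_eq_mul, nsmul_eq_mul] at Ltot
  set κ : ℕ := (Finset.univ.filter (fun s : ZMod D => 2 * s = 0)).card with hκ
  have hκ' : (κ : ℤ) = 1 ∨ ((κ : ℤ) = 2 ∧ Even (D : ℤ)) := by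
    rcases card_two_torsion D with h | ⟨h, h'⟩
    · left; rw [hκ, h]; rfl
    · right; refine ⟨by rw [hκ, h]; rfl, by exact_mod_cast h'⟩
  refine final_false (Q : ℤ) D n ν η κ (by exact_mod_cast hQ5) (by exact_mod_cast hn2) hη hnν
    (by exact_mod_cast hn) hκ' ?_
  refine Ltot.trans (le_of_eq ?_)
  rw [hM]
  ring

end R848.SIC
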