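import Mathlib
import Pool.Agent.R848.SIC.Step5
import Pool.Agent.R848.SIC.Gal

/-! Assembly of the parity theorem for Weyl–Heisenberg SICs. -/

namespace R848.SIC

open scoped BigOperators

theorem sum_crt {A B R M : Type*} [Fintype A] [Fintype B] [Fintype R] [AddCommMonoid M]
    (E : R ≃ A × B) (f : R → M) : ∑ c, f c = ∑ a, ∑ s, f (E.symm (a, s)) := by
  rw [← Equiv.sum_comp E.symm, Fintype.sum_prod_type]

theorem sum_reorder {A B M : Type*} [Fintype A] [Fintype B] [AddCommMonoid M]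
    (f : A → B → A → B → M) :
    ∑ s, ∑ r, ∑ a, ∑ b, f a s b r = ∑ a, ∑ s, ∑ b, ∑ r, f a s b r := by
  calc ∑ s, ∑ r, ∑ a, ∑ b, f a s b r = ∑ s, ∑ a, ∑ r, ∑ b, f a s b r :=
        Finset.sum_congr rfl (fun s _ => Finset.sum_comm)
    _ = ∑ a, ∑ s, ∑ r, ∑ b, f a s b r := Finset.sum_comm
    _ = ∑ a, ∑ s, ∑ b, ∑ r, f a s b r :=
        Finset.sum_congr rfl (fun a _ => Finset.sum_congr rfl (fun s _ => Finset.sum_comm))

theorem no_big {q e D : ℕ} (hq : q.Prime) (he : 1 ≤ e) (hq2 : q ≠ 2) (hQ5 : 5 ≤ q ^ e)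
    (hco : (q ^ e).Coprime D) [NeZero (q ^ e * D)]
    (n : ℕ) (hn2 : 2 ≤ n) (hn : n ^ 2 = q ^ e * D + 1)
    (ε : ℤ) (hε : ε = 1 ∨ ε = -1)
    (G : ZMod (q ^ e * D) → ZMod (q ^ e * D) → ℤ)
    (h1 : ∀ c b, ¬ (2 * c = 0 ∧ b = 0) → G c b = 1 ∨ G c b = -1)
    (h2 : ∀ c, 2 * c = 0 → G c 0 = n)
    (hdual : ∀ x y, ∑ c, ∑ b, ZMod.stdAddChar (b * x - c * y) * (G c b : ℂ) =
      ((ε * (q ^ e * D : ℕ) : ℤ) : ℂ) * G x y) : False := by
  classical
  have hne : q ^ e * D ≠ 0 := NeZero.ne _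
  have hQ0 : NeZero (q ^ e) := ⟨fun h => hne (by rw [h, zero_mul])⟩
  have hD0 : NeZero D := ⟨fun h => hne (by rw [h, mul_zero])⟩
  have hK : (ε * (q ^ e * D : ℕ) : ℤ) ≠ 0 := by
    apply mul_ne_zero
    · rcases hε with h | h <;> rw [h] <;> norm_num
    · exact_mod_cast hne
  have huinv := unit_inv G _ hK hdual
  set E := ZMod.chineseRemainder hco with hE
  set χ : AddChar (ZMod (q ^ e * D)) ℂ := ZMod.stdAddChar with hχdef
  have hχ : χ.IsPrimitive := ZMod.isPrimitive_stdAddChar _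
  set χ1 : AddChar (ZMod (q ^ e)) ℂ := χ.compAddMonoidHom
    ((E.symm : _ →+ _).comp (AddMonoidHom.inl (ZMod (q ^ e)) (ZMod D))) with hχ1
  set χ2 : AddChar (ZMod D) ℂ := χ.compAddMonoidHom
    ((E.symm : _ →+ _).comp (AddMonoidHom.inr (ZMod (q ^ e)) (ZMod D))) with hχ2
  have e1 : ∀ a, χ1 a = χ (E.symm (a, 0)) := fun a => rfl
  have e2 : ∀ s, χ2 s = χ (E.symm (0, s)) := fun a => rfl
  have e3 : ∀ a s, χ (E.symm (a, s)) = χ1 a * χ2 s := by
    intro a s
    rw [e1, e2, ← AddChar.map_add_eq_mul, ← map_add]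
    simp
  have hp1 : χ1.IsPrimitive := by
    intro a ha
    have hα : E.symm (a, 0) ≠ 0 := by
      intro h
      rw [map_eq_zero_iff E.symm E.symm.injective] at h
      exact ha (Prod.ext_iff.1 h).1
    obtain ⟨z, hz⟩ := AddChar.ne_one_iff.1 (hχ hα)
    rw [AddChar.mulShift_apply] at hz
    refine AddChar.ne_one_iff.2 ⟨(E z).1, ?_⟩
    rw [AddChar.mulShift_apply, e1]
    have : E.symm (a, 0) * z = E.symm (a * (E z).1, 0) := by
      apply E.injective
      rw [map_mul, E.apply_symm_apply, E.apply_symm_apply]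
      ext <;> simp
    rwa [← this]
  have hp2 : χ2.IsPrimitive := by
    intro a ha
    have hα : E.symm (0, a) ≠ 0 := by
      intro h
      rw [map_eq_zero_iff E.symm E.symm.injective] at h
      exact ha (Prod.ext_iff.1 h).2
    obtain ⟨z, hz⟩ := AddChar.ne_one_iff.1 (hχ hα)
    rw [AddChar.mulShift_apply] at hz
    refine AddChar.ne_one_iff.2 ⟨(E z).2, ?_⟩
    rw [AddChar.mulShift_apply, e2]
    have : E.symm (0, a) * z = E.symm (0, a * (E z).2) := by
      apply E.injective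
      rw [map_mul, E.apply_symm_apply, E.apply_symm_apply]
      ext <;> simp
    rwa [← this]
  have h2u : ∀ a : ZMod (q ^ e), 2 * a = 0 → a = 0 := by
    intro a ha
    have hu : IsUnit ((2 : ℕ) : ZMod (q ^ e)) := by
      rw [ZMod.isUnit_iff_coprime]
      apply Nat.Coprime.pow_right
      rw [Nat.coprime_two_left]
      exact hq.odd_of_ne_two hq2
    have : ((2 : ℕ) : ZMod (q ^ e)) * a = 0 := by push_cast; exact ha
    exact (hu.mul_right_eq_zero).1 this
  refine step5 hq he hq2 hQ5 hco χ1 hp1 χ2 hp2 n hn2 hn ε hε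
    (fun a s b r => G (E.symm (a, s)) (E.symm (b, r))) ?_ ?_ ?_ ?_
  · intro a s b r h
    apply h1
    rintro ⟨h3, h4⟩
    apply h
    rw [map_eq_zero_iff E.symm E.symm.injective] at h4
    have h5 : E.symm (2 * a, 2 * s) = 0 := by
      rw [← h3, two_mul, two_mul, two_mul, ← map_add]
      rfl
    rw [map_eq_zero_iff E.symm E.symm.injective] at h5
    exact ⟨h2u a (Prod.ext_iff.1 h5).1, (Prod.ext_iff.1 h5).2, (Prod.ext_iff.1 h4).1,
      (Prod.ext_iff.1 h4).2⟩
  · intro s hs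
    have h3 : E.symm ((0 : ZMod (q ^ e)), (0 : ZMod D)) = 0 := map_zero _
    simp only [h3]
    apply h2
    rw [two_mul, ← map_add]
    have : ((0 : ZMod (q ^ e)), s) + (0, s) = 0 := by
      rw [Prod.mk_add_mk, add_zero, ← two_mul, hs]; rfl
    rw [this, map_zero]
  · intro x1 x2 y1 y2
    have h3 := hdual (E.symm (x1, x2)) (E.symm (y1, y2))
    have h4 : ((ε * (q ^ e * D : ℕ) : ℤ) : ℂ) * G (E.symm (x1, x2)) (E.symm (y1, y2)) =
      (ε : ℂ) * (((q ^ e : ℕ) : ℂ) * D) * G (E.symm (x1, x2)) (E.symm (y1, y2)) := by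
      push_cast; ring
    rw [← h4, ← h3]
    rw [sum_crt E.toEquiv (fun c => ∑ b, χ (b * E.symm (x1, x2) - c * E.symm (y1, y2)) * (G c b : ℂ))]
    have h5 : ∀ (a : ZMod (q ^ e)) (s : ZMod D),
        ∑ b, χ (b * E.symm (x1, x2) - E.symm (a, s) * E.symm (y1, y2)) * (G (E.symm (a, s)) b : ℂ) =
        ∑ b, ∑ r, χ1 (b * x1 - a * y1) * χ2 (r * x2 - s * y2) *
          (G (E.symm (a, s)) (E.symm (b, r)) : ℂ) := by
      intro a s
      rw [sum_crt E.toEquiv]
      apply Finset.sum_congr rfl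
      intro b _
      apply Finset.sum_congr rfl
      intro r _
      rw [← e3]
      congr 2
      change (E.symm (b, r) * E.symm (x1, x2) - E.symm (a, s) * E.symm (y1, y2)) = _
      rw [← map_mul, ← map_mul, ← map_sub]
      rfl
    have h6 : ∑ a, ∑ s, ∑ b, χ (b * E.symm (x1, x2) - E.toEquiv.symm (a, s) * E.symm (y1, y2)) *
        (G (E.toEquiv.symm (a, s)) b : ℂ) = ∑ a, ∑ s, ∑ b, ∑ r,
          χ1 (b * x1 - a * y1) * χ2 (r * x2 - s * y2) *
          (G (E.symm (a, s)) (E.symm (b, r)) : ℂ) := by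
      apply Finset.sum_congr rfl
      intro a _
      apply Finset.sum_congr rfl
      intro s _
      exact h5 a s
    rw [h6]
    exact sum_reorder (fun a s b r => χ1 (b * x1 - a * y1) * χ2 (r * x2 - s * y2) *
          (G (E.symm (a, s)) (E.symm (b, r)) : ℂ))
  · intro k a s b r
    have hu : IsUnit (E.symm ((k : ZMod (q ^ e)), (1 : ZMod D))) := by
      have : IsUnit ((k : ZMod (q ^ e)), (1 : ZMod D)) := by
        rw [Prod.isUnit_iff]
        exact ⟨k.isUnit, isUnit_one⟩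
      exact this.map E.symm
    have h3 := huinv _ hu (E.symm (a, s)) (E.symm (b, r))
    rw [← map_mul, ← map_mul, Prod.mk_mul_mk, Prod.mk_mul_mk, one_mul, one_mul] at h3
    exact h3

end R848.SIC
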