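import Mathlib
import Pool.Agent.R848.SIC.Main

/-! Abstract form of the parity theorem for Weyl–Heisenberg SICs. -/

namespace R848.SIC

open scoped BigOperators

theorem isSquare_of_rational {d : ℕ} (m k : ℤ) (hk : k ≠ 0)
    (h : (k : ℝ) * √((d + 1 : ℕ) : ℝ) = m) : IsSquare (d + 1) := by
  by_contra hns
  have hirr : Irrational √((d + 1 : ℕ) : ℝ) := irrational_sqrt_natCast_iff.2 hns
  apply hirr
  refine ⟨(m : ℚ) / k, ?_⟩
  have hk' : (k : ℝ) ≠ 0 := by exact_mod_cast hk
  push_cast
  rw [div_eq_iff hk', ← h]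
  push_cast
  ring

theorem arith_end {d n : ℕ} (hd : 4 ≤ d) (hn : n ^ 2 = d + 1)
    (hodd : ∀ q e D : ℕ, q.Prime → 1 ≤ e → q ≠ 2 → d = q ^ e * D → (q ^ e).Coprime D →
      q ^ e < 5) : d = 8 ∨ d = 24 ∨ d = 48 := by
  have hd0 : d ≠ 0 := by omega
  -- odd divisors are 1 or 3
  have key : ∀ w : ℕ, Odd w → w ∣ d → w = 1 ∨ w = 3 := by
    intro w hw hwd
    by_cases hw1 : w = 1
    · exact Or.inl hw1
    right
    have hprime : ∀ q : ℕ, q.Prime → q ∣ w → q = 3 ∧ d.factorization q = 1 := by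
      intro q hq hqw
      have hqd : q ∣ d := hqw.trans hwd
      have hq2 : q ≠ 2 := by
        rintro rfl
        exact (Nat.not_even_iff_odd.2 hw) (even_iff_two_dvd.2 hqw)
      have he : 1 ≤ d.factorization q := (hq.dvd_iff_one_le_factorization hd0).1 hqd
      have h1 := hodd q (d.factorization q) (d / q ^ d.factorization q) hq he hq2
        (Nat.ordProj_mul_ordCompl_eq_self d q).symm
        (Nat.Coprime.pow_left _ (Nat.coprime_ordCompl hq hd0))
      have hq3 : 3 ≤ q := by
        have := hq.two_le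
        omega
      have hq5 : q < 5 := lt_of_le_of_lt (by
        calc q = q ^ 1 := (pow_one q).symm
          _ ≤ q ^ d.factorization q := Nat.pow_le_pow_right hq.pos he) h1
      have hq4 : q ≠ 4 := by rintro rfl; exact absurd hq (by decide)
      have hq3' : q = 3 := by omega
      refine ⟨hq3', ?_⟩
      by_contra hne
      have h2 : 2 ≤ d.factorization q := by omega
      have : 9 ≤ q ^ d.factorization q := by
        calc 9 = q ^ 2 := by rw [hq3']
          _ ≤ q ^ d.factorization q := Nat.pow_le_pow_right hq.pos h2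
      omega
    have hw0 : w ≠ 0 := by rintro rfl; exact absurd hw (by decide)
    have hwpow : w = 3 ^ w.primeFactorsList.length := by
      apply Nat.eq_prime_pow_of_unique_prime_dvd hw0
      intro q hq hqw
      exact (hprime q hq hqw).1
    set k := w.primeFactorsList.length with hk
    have hk0 : k ≠ 0 := by
      intro h
      rw [h, pow_zero] at hwpow
      exact hw1 hwpow
    have h3w : 3 ∣ w := by
      rw [hwpow]; exact dvd_pow_self 3 hk0
    have h3 := (hprime 3 Nat.prime_three h3w).2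
    have hkle : k ≤ d.factorization 3 :=
      (Nat.prime_three.pow_dvd_iff_le_factorization hd0).1 (hwpow ▸ hwd)
    have hk1 : k = 1 := by omega
    rw [hwpow, hk1, pow_one]
  rcases Nat.even_or_odd d with hev | hod
  · have hnodd : Odd n := by
      by_contra h
      rw [Nat.not_odd_iff_even] at h
      have : Even (n ^ 2) := h.pow_of_ne_zero (by norm_num)
      rw [hn] at this
      exact (Nat.not_even_iff_odd.2 (hev.add_one)) this
    obtain ⟨u, hu⟩ := hnodd
    have hdu : d = 4 * (u * (u + 1)) := by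
      have : d + 1 = (2 * u + 1) ^ 2 := by rw [← hn, hu]
      nlinarith
    rcases Nat.even_or_odd u with hue | huo
    · have h1 : Odd (u + 1) := hue.add_one
      have h2 : u + 1 ∣ d := by rw [hdu]; exact ⟨4 * u, by ring⟩
      rcases key _ h1 h2 with h | h
      · have : u = 0 := by omega
        rw [this] at hdu; omega
      · have : u = 2 := by omega
        rw [this] at hdu; omega
    · have h2 : u ∣ d := by rw [hdu]; exact ⟨4 * (u + 1), by ring⟩
      rcases key _ huo h2 with h | h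
      · rw [h] at hdu; omega
      · rw [h] at hdu; omega
  · rcases key d hod dvd_rfl with h | h <;> omega

theorem abstract_main {d : ℕ} [NeZero d] (hd : 4 ≤ d) (ρ : ZMod d → ZMod d → ℝ) (ε : ℤ)
    (hε : ε = 1 ∨ ε = -1)
    (h1 : ∀ c b, ¬ (2 * c = 0 ∧ b = 0) → (ρ c b) ^ 2 = 1 / (d + 1))
    (h2 : ∀ c, 2 * c = 0 → ρ c 0 = 1)
    (h3 : ∀ x y, ∑ c, ∑ b, ZMod.stdAddChar (b * x - c * y) * (ρ c b : ℂ) =
      (ε : ℂ) * d * (ρ x y : ℂ)) : d = 8 ∨ d = 24 ∨ d = 48 := by
  classical
  set s : ℝ := √((d + 1 : ℕ) : ℝ) with hs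
  have hs2 : s ^ 2 = (d : ℝ) + 1 := by
    rw [hs, Real.sq_sqrt (by positivity)]; push_cast; ring
  have hdpos : (0 : ℝ) < (d : ℝ) + 1 := by positivity
  -- signs
  have hsign : ∀ c b, ∃ g : ℤ, (¬ (2 * c = 0 ∧ b = 0) → (g = 1 ∨ g = -1)) ∧
      (s * ρ c b = (g : ℝ) + (if 2 * c = 0 ∧ b = 0 then s else 0)) ∧
      ((2 * c = 0 ∧ b = 0) → g = 0) := by
    intro c b
    by_cases hE : 2 * c = 0 ∧ b = 0
    · refine ⟨0, fun h => absurd hE h, ?_, fun _ => rfl⟩
      rw [if_pos hE, hE.2, h2 c hE.1]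
      simp
    · have h4 : (s * ρ c b) ^ 2 = 1 := by
        rw [mul_pow, h1 c b hE, hs2]
        field_simp
      rcases sq_eq_one_iff.1 h4 with h5 | h5
      · exact ⟨1, fun _ => Or.inl rfl, by rw [h5, if_neg hE]; simp, fun h => absurd h hE⟩
      · exact ⟨-1, fun _ => Or.inr rfl, by rw [h5, if_neg hE]; simp, fun h => absurd h hE⟩
  choose g hg1 hg2 hg3 using hsign
  -- rationality
  set κ : ℕ := (Finset.univ.filter (fun s : ZMod d => 2 * s = 0)).card with hκ
  have hκ2 : κ ≤ 2 := by
    rcases card_two_torsion d with h | ⟨h, _⟩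
    · rw [hκ, h]; norm_num
    · rw [hκ, h]
  have hsumρ : ∑ c, ∑ b, ρ c b = ε * d := by
    have h4 := h3 0 0
    simp only [mul_zero, sub_zero, AddChar.map_zero_eq_one, one_mul] at h4
    rw [h2 0 (mul_zero _)] at h4
    have h5 : ((∑ c, ∑ b, ρ c b : ℝ) : ℂ) = ((ε * d : ℝ) : ℂ) := by
      push_cast
      rw [h4]
      simp
    exact_mod_cast h5
  have hrat : ((ε * d - κ : ℤ) : ℝ) * s = ((∑ c, ∑ b, g c b : ℤ) : ℝ) := by
    have h4 : ∑ c, ∑ b, s * ρ c b = s * (ε * d) := by
      rw [← hsumρ, Finset.mul_sum]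
      apply Finset.sum_congr rfl
      intro c _
      rw [Finset.mul_sum]
    have h5 : ∑ c, ∑ b, s * ρ c b = ((∑ c, ∑ b, g c b : ℤ) : ℝ) + κ * s := by
      have e1 : ∀ c, ∑ b, s * ρ c b = ∑ b, (g c b : ℝ) + (if 2 * c = 0 then s else 0) := by
        intro c
        rw [Finset.sum_congr rfl (fun b _ => hg2 c b), Finset.sum_add_distrib]
        congr 1
        by_cases hc : 2 * c = 0
        · simp [hc]
        · simp [hc]
      rw [Finset.sum_congr rfl (fun c _ => e1 c), Finset.sum_add_distrib, ← Finset.sum_filter,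
        Finset.sum_const, nsmul_eq_mul]
      push_cast
      rfl
    rw [h4] at h5
    push_cast
    push_cast at h5
    linarith
  have hk0 : (ε * d - κ : ℤ) ≠ 0 := by
    rcases hε with h | h <;> rw [h] <;> omega
  obtain ⟨n, hn⟩ := isSquare_of_rational _ _ hk0 hrat
  have hn' : n ^ 2 = d + 1 := by rw [hn]; ring
  have hsn : s = n := by
    rw [hs, hn]
    push_cast
    rw [Real.sqrt_mul_self (by positivity)]
  have hn2 : 2 ≤ n := by nlinarith
  -- the integer function
  set G : ZMod d → ZMod d → ℤ := fun c b => if 2 * c = 0 ∧ b = 0 then n else g c b with hG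
  have hGρ : ∀ c b, (G c b : ℝ) = n * ρ c b := by
    intro c b
    rw [← hsn, hg2 c b]
    by_cases hE : 2 * c = 0 ∧ b = 0
    · rw [hg3 c b hE, if_pos hE, hsn]
      simp [hG, hE]
    · simp [hG, hE]
  have hGC : ∀ c b, (G c b : ℂ) = n * (ρ c b : ℂ) := by
    intro c b
    have := congrArg (fun t : ℝ => (t : ℂ)) (hGρ c b)
    simpa using this
  have hG1 : ∀ c b, ¬ (2 * c = 0 ∧ b = 0) → G c b = 1 ∨ G c b = -1 := by
    intro c b hE
    simp only [hG, if_neg hE]
    exact hg1 c b hE
  have hG2 : ∀ c, 2 * c = 0 → G c 0 = n := by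
    intro c hc
    simp [hG, hc]
  have hGdual : ∀ x y, ∑ c, ∑ b, ZMod.stdAddChar (b * x - c * y) * (G c b : ℂ) =
      ((ε * (d : ℕ) : ℤ) : ℂ) * G x y := by
    intro x y
    rw [hGC x y]
    calc ∑ c, ∑ b, ZMod.stdAddChar (b * x - c * y) * (G c b : ℂ) =
        n * ∑ c, ∑ b, ZMod.stdAddChar (b * x - c * y) * (ρ c b : ℂ) := by
          rw [Finset.mul_sum]
          apply Finset.sum_congr rfl
          intro c _
          rw [Finset.mul_sum]
          apply Finset.sum_congr rfl
          intro b _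
          rw [hGC]; ring
      _ = _ := by rw [h3]; push_cast; ring
  apply arith_end hd hn'
  intro q e D hq he hq2 hdQ hco
  by_contra hge
  push Not at hge
  subst hdQ
  exact no_big hq he hq2 hge hco n hn2 hn' ε hε G hG1 hG2 hGdual

end R848.SIC
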